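import Pool.Agent.Y472.E.Defs
import Pool.Agent.Y590.CB.Farx
import Pool.Agent.W688.HT.Bb

/-!
# CB3-E-FARY: bounds of the traces near the height `y₀`

`fary : Pool.Agent.Y472.S_FARY`.  Adapted from `Pool.Agent.Y590.CB.Farx` (helper590).
-/

set_option autoImplicit false

namespace Pool.Agent.Y535.CB

open Finset Filter Topology
open Pool.Agent.W711.HT Pool.Agent.Y472
open Pool.Agent.W346.HT (Sd_pos)
open Pool.Agent.Y590.CB
open scoped Real

theorem bet_pos : 0 < bet := by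
  have hπ := Real.pi_pos
  have hL := EvenVol.LobIneq.lob_four_pos
  rw [Pool.Agent.W688.HT.bet_eq]
  positivity

/-- `rhc` at the height `y₀` -/
noncomputable def rr (y₀ u δ : ℝ) : ℝ := rhc δ (u + y₀ * Complex.I)

/-- bound of the products of `Ph` -/
theorem Ph_bdy (h : S_TBY) {y₀ : ℝ} (hy : 0 < y₀) (hy' : y₀ ≤ 9 / 5) (ε : ℝ) (hε : 0 < ε) :
    ∃ τ : ℝ, 0 < τ ∧ ∀ᶠ N : ℕ in atTop,
    ∀ y x : ℕ, y ≤ x → x < N → ∀ χ : ℂ, |χ.re| ≤ π → |χ.im - y₀| ≤ τ →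
    ‖∏ t ∈ Ioc y x, Ph N χ t‖ ≤ (Sd N x ^ 2 / Sd N y ^ 2) ^ 2 *
      Real.exp (N * (rr y₀ χ.re ((x : ℝ) / N) - rr y₀ χ.re ((y : ℝ) / N) + ε)) := by
  obtain ⟨τ, hτ, hN⟩ := h y₀ hy hy' ε hε
  refine ⟨τ, hτ, ?_⟩
  filter_upwards [hN] with N hN
  intro y x hyx hx χ h1 h2
  have hSx := Sd_pos hx
  have hSy := Sd_pos (show y < N by omega)
  have h3 := hN y x hyx hx χ.re χ.im h1 h2
  rw [Complex.re_add_im] at h3
  simp only [Ph_eq, prod_mul_distrib]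
  rw [norm_mul]
  have h4 : ‖∏ t ∈ Ioc y x, ((qc N t : ℝ) : ℂ)‖ = Sd N x ^ 2 / Sd N y ^ 2 := by
    have h5 := Sd_qc N hyx
    have h6 : ∏ t ∈ Ioc y x, ((qc N t : ℝ) : ℂ) = ((∏ t ∈ Ioc y x, qc N t : ℝ) : ℂ) := by
      push_cast
      rfl
    rw [h6, Complex.norm_real, Real.norm_of_nonneg, eq_div_iff (by positivity), ← h5, mul_comm]
    exact prod_nonneg fun t _ => by rw [qc_sq]; positivity
  rw [h4]
  calc Sd N x ^ 2 / Sd N y ^ 2 * ‖∏ t ∈ Ioc y x, pc N χ t‖ ≤ Sd N x ^ 2 / Sd N y ^ 2 *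
        (Sd N x ^ 2 / Sd N y ^ 2 *
          Real.exp (N * (rr y₀ χ.re ((x : ℝ) / N) - rr y₀ χ.re ((y : ℝ) / N) + ε))) := by
        have : ‖∏ t ∈ Ioc y x, pc N χ t‖ ≤ Sd N x ^ 2 / Sd N y ^ 2 *
          Real.exp (N * (rr y₀ χ.re ((x : ℝ) / N) - rr y₀ χ.re ((y : ℝ) / N) + ε)) := h3
        gcongr
    _ = _ := by ring

/-- `q'` -/
noncomputable def vq (N : ℕ) (ε y₀ u : ℝ) (y : ℕ) : ℝ :=
  Real.exp (N * (bp ((y : ℝ) / N) + y₀ / 2 - rr y₀ u ((y : ℝ) / N) + 3 * ε)) / Sd N y ^ 2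
/-- `p'` -/
noncomputable def vp (N : ℕ) (ε y₀ u : ℝ) (x : ℕ) : ℝ :=
  Sd N x ^ 2 * Real.exp (N * (bp (1 - (x : ℝ) / N) + rr y₀ u ((x : ℝ) / N) - y₀ / 2 + 3 * ε))

theorem vq_pos {N x : ℕ} (hx : x < N) (ε y₀ u : ℝ) : 0 < vq N ε y₀ u x := by
  have := Sd_pos hx
  unfold vq
  positivity

theorem vp_pos {N x : ℕ} (hx : x < N) (ε y₀ u : ℝ) : 0 < vp N ε y₀ u x := by
  have := Sd_pos hx
  unfold vp
  positivity

/-- the bounds of the matrices, one twist region -/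
theorem enty1 (h : S_TBY)
    (h4 : ∀ δ x : ℝ, 0 ≤ δ → δ ≤ 1 → |x| ≤ π → bb δ x ≤ max (bb δ 0) 0) {y₀ : ℝ} (hy0 : 0 < y₀)
    (hy1 : y₀ ≤ 9 / 5)
    (ε : ℝ) (hε : 0 < ε) : ∃ τ : ℝ, 0 < τ ∧ ∀ a : ℤ, ∀ᶠ N : ℕ in atTop, ∀ χ : ℂ, |χ.re| ≤ π →
    |χ.im - y₀| ≤ τ →
    Bd (fun x : Fin N => wp N ε x) (fun y : Fin N => wq N ε y) (MA0 N a) ∧
    Bd (fun y : Fin N => vq N ε y₀ χ.re y) (fun x : Fin N => vp N ε y₀ χ.re x) (MB0 N χ a) := by
  obtain ⟨τ, hτ, hP⟩ := Ph_bdy h hy0 hy1 ε hε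
  refine ⟨τ, hτ, fun a => ?_⟩
  obtain ⟨C, hC, hJ⟩ := cJ_bd h4 a ε hε
  filter_upwards [hJ, hP, ev_N (ε := ε / 2) (half_pos hε), ev_le (K := C) (ε := ε) hε,
    eventually_gt_atTop 0] with N hJ hP hN hK hN0
  intro χ hχ1 hχ2
  have hNR : (0 : ℝ) < N := by exact_mod_cast hN0
  have hCN : C * (N : ℝ) ^ 2 ≤ Real.exp (N * (2 * ε)) := by
    calc C * (N : ℝ) ^ 2 ≤ Real.exp (N * ε) * Real.exp (N * (ε / 2)) ^ 2 := by gcongr
      _ = Real.exp (N * (2 * ε)) := by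
        rw [← Real.exp_nat_mul, ← Real.exp_add]
        congr 1
        push_cast
        ring
  constructor
  · intro x y
    have hSx := Sd_pos x.isLt
    have hSy := Sd_pos y.isLt
    have hp := wp_pos x.isLt ε
    have hq := wq_pos y.isLt ε
    unfold MA0
    split_ifs
    · refine (hJ y x y.isLt x.isLt).trans ?_
      have h1 : C * (N : ℝ) ^ 2 ≤ Real.exp (N * (3 * ε)) :=
        hCN.trans (Real.exp_le_exp.2 (by nlinarith))
      calc C * (N : ℝ) ^ 2 * (Sd N y ^ 2 / Sd N x ^ 2) *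
          Real.exp (N * (bp ((y : ℝ) / N) + bp (1 - (x : ℝ) / N) + 3 * ε)) ≤
          Real.exp (N * (3 * ε)) * (Sd N y ^ 2 / Sd N x ^ 2) *
          Real.exp (N * (bp ((y : ℝ) / N) + bp (1 - (x : ℝ) / N) + 3 * ε)) := by gcongr
        _ = (Sd N y ^ 2 / Sd N x ^ 2) * (Real.exp (N * (3 * ε)) *
          Real.exp (N * (bp ((y : ℝ) / N) + bp (1 - (x : ℝ) / N) + 3 * ε))) := by ring
        _ = (Sd N y ^ 2 / Sd N x ^ 2) * (Real.exp (N * (bp (1 - (x : ℝ) / N) + 3 * ε)) *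
          Real.exp (N * (bp ((y : ℝ) / N) + 3 * ε))) := by
          rw [← Real.exp_add, ← Real.exp_add]
          congr 2
          ring
        _ = wp N ε x * wq N ε y := by
          unfold wp wq
          ring
    · rw [norm_zero]
      positivity
  · intro y x
    have hSx := Sd_pos x.isLt
    have hSy := Sd_pos y.isLt
    have hp := vp_pos x.isLt ε y₀ χ.re
    have hq := vq_pos y.isLt ε y₀ χ.re
    unfold MB0
    split_ifs with hle
    · rw [norm_mul]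
      have h1 := hP y x hle x.isLt χ hχ1 hχ2
      have h2 := hJ y x y.isLt x.isLt
      calc ‖∏ t ∈ Ioc (y : ℕ) x, Ph N χ t‖ * ‖cJ N a y x‖ ≤
          ((Sd N x ^ 2 / Sd N y ^ 2) ^ 2 *
            Real.exp (N * (rr y₀ χ.re ((x : ℝ) / N) - rr y₀ χ.re ((y : ℝ) / N) + ε))) *
          (C * (N : ℝ) ^ 2 * (Sd N y ^ 2 / Sd N x ^ 2) *
            Real.exp (N * (bp ((y : ℝ) / N) + bp (1 - (x : ℝ) / N) + 3 * ε))) :=
            mul_le_mul h1 h2 (norm_nonneg _) (by positivity)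
        _ ≤ ((Sd N x ^ 2 / Sd N y ^ 2) ^ 2 *
            Real.exp (N * (rr y₀ χ.re ((x : ℝ) / N) - rr y₀ χ.re ((y : ℝ) / N) + ε))) *
          (Real.exp (N * (2 * ε)) * (Sd N y ^ 2 / Sd N x ^ 2) *
            Real.exp (N * (bp ((y : ℝ) / N) + bp (1 - (x : ℝ) / N) + 3 * ε))) := by gcongr
        _ = (Sd N x ^ 2 / Sd N y ^ 2) *
            (Real.exp (N * (rr y₀ χ.re ((x : ℝ) / N) - rr y₀ χ.re ((y : ℝ) / N) + ε)) *
            Real.exp (N * (2 * ε)) *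
            Real.exp (N * (bp ((y : ℝ) / N) + bp (1 - (x : ℝ) / N) + 3 * ε))) := by
            field_simp
        _ = (Sd N x ^ 2 / Sd N y ^ 2) *
            (Real.exp (N * (bp ((y : ℝ) / N) + y₀ / 2 - rr y₀ χ.re ((y : ℝ) / N) + 3 * ε)) *
            Real.exp (N * (bp (1 - (x : ℝ) / N) + rr y₀ χ.re ((x : ℝ) / N) - y₀ / 2 +
              3 * ε))) := by
            rw [← Real.exp_add, ← Real.exp_add, ← Real.exp_add]
            congr 2
            ring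
        _ = vq N ε y₀ χ.re y * vp N ε y₀ χ.re x := by
            unfold vq vp
            ring
    · rw [norm_zero]
      positivity

/-- the bounds of the matrices -/
theorem enty (h : S_TBY)
    (h4 : ∀ δ x : ℝ, 0 ≤ δ → δ ≤ 1 → |x| ≤ π → bb δ x ≤ max (bb δ 0) 0) {y₀ : ℝ} (hy0 : 0 < y₀)
    (hy1 : y₀ ≤ 9 / 5)
    (ε : ℝ) (hε : 0 < ε) : ∃ τ : ℝ, 0 < τ ∧ ∀ ls : List (ℤ × ℤ), ∀ᶠ N : ℕ in atTop, ∀ χ : ℂ,
    |χ.re| ≤ π → |χ.im - y₀| ≤ τ →
    ∀ s ∈ ls, Bd (fun x : Fin N => wp N ε x) (fun y : Fin N => wq N ε y) (MA0 N s.1) ∧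
    Bd (fun y : Fin N => vq N ε y₀ χ.re y) (fun x : Fin N => vp N ε y₀ χ.re x) (MB0 N χ s.2) := by
  obtain ⟨τ, hτ, H⟩ := enty1 h h4 hy0 hy1 ε hε
  refine ⟨τ, hτ, fun ls => ?_⟩
  induction ls with
  | nil => exact Eventually.of_forall fun N χ _ _ s hs => absurd hs (by simp)
  | cons a l ih =>
    filter_upwards [ih, H a.1, H a.2] with N H0 H1 H2
    intro χ hχ1 hχ2 s hs
    rcases List.mem_cons.1 hs with rfl | hs
    · exact ⟨(H1 χ hχ1 hχ2).1, (H2 χ hχ1 hχ2).2⟩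
    · exact H0 χ hχ1 hχ2 s hs

/-- the weights of the indices `x` -/
theorem vx {N x : ℕ} (hx : x < N) {ε y₀ u : ℝ} (hu : |u| ≤ π)
    (h1 : ∀ δ x : ℝ, 0 ≤ δ → δ ≤ 1 → |x| ≤ π →
      rhc (1 - δ) (x + y₀ * Complex.I) = y₀ - rhc δ (x + y₀ * Complex.I)) :
    vp N ε y₀ u x * wp N ε x =
      Real.exp (N * (2 * max (bb (1 - (x : ℝ) / N) 0) 0 + y₀ / 2 -
        rhc (1 - (x : ℝ) / N) (u + y₀ * Complex.I) + 6 * ε)) := by
  have hSx := Sd_pos hx
  have hNR : (0 : ℝ) < N := by exact_mod_cast (show 0 < N by omega)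
  have hx1 : (x : ℝ) / N ≤ 1 := by
    rw [div_le_one hNR]
    exact_mod_cast hx.le
  have h2 := h1 ((x : ℝ) / N) u (by positivity) hx1 hu
  have e : rr y₀ u ((x : ℝ) / N) = y₀ - rhc (1 - (x : ℝ) / N) (u + y₀ * Complex.I) := by
    unfold rr; rw [h2]; ring
  unfold wp vp
  rw [e]
  calc Sd N x ^ 2 * Real.exp (N * (bp (1 - (x : ℝ) / N) +
        (y₀ - rhc (1 - (x : ℝ) / N) (u + y₀ * Complex.I)) - y₀ / 2 + 3 * ε)) *
        (Real.exp (N * (bp (1 - (x : ℝ) / N) + 3 * ε)) / Sd N x ^ 2) =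
      Real.exp (N * (bp (1 - (x : ℝ) / N) +
        (y₀ - rhc (1 - (x : ℝ) / N) (u + y₀ * Complex.I)) - y₀ / 2 + 3 * ε)) *
        Real.exp (N * (bp (1 - (x : ℝ) / N) + 3 * ε)) := by
        field_simp
    _ = _ := by
        rw [← Real.exp_add]
        congr 1
        unfold bp
        ring

/-- the weights of the indices `y` -/
theorem vy {N y : ℕ} (hy : y < N) {ε y₀ u : ℝ} :
    wq N ε y * vq N ε y₀ u y =
      Real.exp (N * (2 * max (bb ((y : ℝ) / N) 0) 0 + y₀ / 2 -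
        rhc ((y : ℝ) / N) (u + y₀ * Complex.I) + 6 * ε)) := by
  have hSy := Sd_pos hy
  unfold wq vq
  calc Sd N y ^ 2 * Real.exp (N * (bp ((y : ℝ) / N) + 3 * ε)) *
        (Real.exp (N * (bp ((y : ℝ) / N) + y₀ / 2 - rr y₀ u ((y : ℝ) / N) + 3 * ε)) /
          Sd N y ^ 2) =
      Real.exp (N * (bp ((y : ℝ) / N) + 3 * ε)) *
        Real.exp (N * (bp ((y : ℝ) / N) + y₀ / 2 - rr y₀ u ((y : ℝ) / N) + 3 * ε)) := by
        field_simp
    _ = _ := by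
        rw [← Real.exp_add]
        congr 1
        unfold bp rr
        ring

/-- the pointwise bounds of the weights -/
theorem vts_bd {ρs y₀ c E : ℝ} (hρ0 : 0 < ρs) (hρ1 : ρs ≤ 1) (hc : 0 < c) (hcb : c ≤ bet)
    (hE : 2 * bet ≤ E)
    (R1 : ∀ δ x : ℝ, 0 ≤ δ → δ ≤ 1 → |x| ≤ π →
      rhc (1 - δ) (x + y₀ * Complex.I) = y₀ - rhc δ (x + y₀ * Complex.I))
    (R2 : ∀ δ x : ℝ, 0 ≤ δ → δ ≤ 1 / 2 → |x| ≤ π →
      2 * max (bb δ 0) 0 + y₀ / 2 - rhc δ (x + y₀ * Complex.I) ≤ E - c * min |x| ρs ^ 2)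
    (R3 : ∀ δ x : ℝ, 1 / 2 ≤ δ → δ ≤ 1 → |x| ≤ π →
      2 * max (bb δ 0) 0 + y₀ / 2 - rhc δ (x + y₀ * Complex.I) ≤ bet)
    {N x : ℕ} (hx : x < N) {ε u : ℝ} (hu : |u| ≤ π) :
    vp N ε y₀ u x * wp N ε x ≤ Real.exp (N * (E - c * min |u| ρs ^ 2 + 6 * ε)) ∧
    wq N ε x * vq N ε y₀ u x ≤ Real.exp (N * (E - c * min |u| ρs ^ 2 + 6 * ε)) ∧
    (2 * x < N → vp N ε y₀ u x * wp N ε x ≤ Real.exp (N * (bet + 6 * ε))) ∧
    (N ≤ 2 * x → wq N ε x * vq N ε y₀ u x ≤ Real.exp (N * (bet + 6 * ε))) := by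
  have hNR : (0 : ℝ) < N := by exact_mod_cast (show 0 < N by omega)
  have h0 : 0 ≤ (x : ℝ) / N := by positivity
  have h1 : (x : ℝ) / N ≤ 1 := by
    rw [div_le_one hNR]
    exact_mod_cast hx.le
  have hm : c * min |u| ρs ^ 2 ≤ bet := by
    have h2 : min |u| ρs ^ 2 ≤ 1 := by
      have h3 : 0 ≤ min |u| ρs := le_min (abs_nonneg _) hρ0.le
      have h4 : min |u| ρs ≤ 1 := (min_le_right _ _).trans hρ1
      exact pow_le_one₀ h3 h4
    calc c * min |u| ρs ^ 2 ≤ c * 1 := mul_le_mul_of_nonneg_left h2 hc.le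
      _ ≤ bet := by rw [mul_one]; exact hcb
  have all : ∀ δ : ℝ, 0 ≤ δ → δ ≤ 1 →
      2 * max (bb δ 0) 0 + y₀ / 2 - rhc δ (u + y₀ * Complex.I) ≤ E - c * min |u| ρs ^ 2 := by
    intro δ hδ0 hδ1
    rcases le_total δ (1 / 2) with h | h
    · exact R2 δ u hδ0 h hu
    · have := R3 δ u h hδ1 hu
      linarith
  rw [vx hx hu R1, vy hx]
  refine ⟨Real.exp_le_exp.2 ?_, Real.exp_le_exp.2 ?_, fun h => Real.exp_le_exp.2 ?_,
    fun h => Real.exp_le_exp.2 ?_⟩ <;> refine mul_le_mul_of_nonneg_left ?_ hNR.le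
  · have := all (1 - (x : ℝ) / N) (by linarith) (by linarith)
    linarith
  · have := all ((x : ℝ) / N) h0 h1
    linarith
  · have h2 : (x : ℝ) / N ≤ 1 / 2 := by
      rw [div_le_div_iff₀ hNR two_pos]
      have : x * 2 ≤ 1 * N := by omega
      exact_mod_cast this
    have := R3 (1 - (x : ℝ) / N) u (by linarith) (by linarith) hu
    linarith
  · have h2 : 1 / 2 ≤ (x : ℝ) / N := by
      rw [div_le_div_iff₀ two_pos hNR]
      have : 1 * N ≤ x * 2 := by omega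
      exact_mod_cast this
    have := R3 ((x : ℝ) / N) u h2 h1 hu
    linarith

/-- FARY, with `τ` independent of the list -/
theorem faryu (hT : S_TBY) (hR : S_RHOY) : ∀ y₀ : ℝ, 0 < y₀ → y₀ ≤ 9 / 5 →
    ∃ ρs c₂ : ℝ, 0 < ρs ∧ ρs ≤ 1 ∧ 0 < c₂ ∧ ∀ k : ℕ, 1 ≤ k →
    (∃ τ : ℝ, 0 < τ ∧ ∀ ls : List (ℤ × ℤ), ls.length = k → ∀ᶠ N : ℕ in atTop, ∀ χ : ℂ,
      |χ.re| ≤ π → |χ.im - y₀| ≤ τ →
      ‖Tf N ls χ - Tm N ls χ‖ ≤ Real.exp (N * (2 * k * E0 y₀ - bet / 2))) ∧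
    (∀ ε : ℝ, 0 < ε → ∃ τ : ℝ, 0 < τ ∧ ∀ ls : List (ℤ × ℤ), ls.length = k → ∀ᶠ N : ℕ in atTop,
      ∀ χ : ℂ, |χ.re| ≤ π → |χ.im - y₀| ≤ τ → ‖Tf N ls χ‖ ≤
        Real.exp (N * (2 * k * E0 y₀ - 2 * k * c₂ * min |χ.re| ρs ^ 2 + ε))) := by
  intro y₀ hy0 hy1
  obtain ⟨hE, ρs, c₂, hρ0, hρ1, hc₂, R1, R3, R4, R2, -, -⟩ := hR y₀ hy0 hy1
  have hbet : 0 < bet := bet_pos
  set c : ℝ := min c₂ bet with hc
  have hc0 : 0 < c := lt_min hc₂ hbet
  have hcb : c ≤ bet := min_le_right _ _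
  have R2' : ∀ δ x : ℝ, 0 ≤ δ → δ ≤ 1 / 2 → |x| ≤ π →
      2 * max (bb δ 0) 0 + y₀ / 2 - rhc δ (x + y₀ * Complex.I) ≤ E0 y₀ - c * min |x| ρs ^ 2 := by
    intro δ x h1 h2 h3
    have h4 := R2 δ x h1 h2 h3
    have h5 : c * min |x| ρs ^ 2 ≤ c₂ * min |x| ρs ^ 2 :=
      mul_le_mul_of_nonneg_right (min_le_left _ _) (sq_nonneg _)
    linarith
  refine ⟨ρs, c, hρ0, hρ1, hc0, ?_⟩
  intro k hk1
  have hπ := Real.pi_pos
  set E := E0 y₀ with hEdef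
  have hkR : (1 : ℝ) ≤ k := by exact_mod_cast hk1
  -- the product matrices
  have hAB : ∀ {ls : List (ℤ × ℤ)} {N : ℕ} {χ : ℂ} {ε : ℝ},
      (∀ s ∈ ls, Bd (fun x : Fin N => wp N ε x) (fun y : Fin N => wq N ε y) (MA0 N s.1) ∧
      Bd (fun y : Fin N => vq N ε y₀ χ.re y) (fun x : Fin N => vp N ε y₀ χ.re x)
        (MB0 N χ s.2)) →
      ∀ s ∈ ls, Bd (fun x : Fin N => (∑ y : Fin N, wq N ε y * vq N ε y₀ χ.re y) * wp N ε x)
        (fun x : Fin N => vp N ε y₀ χ.re x) (MA0 N s.1 * MB0 N χ s.2) :=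
    fun H s hs => (H s hs).1.mul (H s hs).2
  have hpull : ∀ {N : ℕ} {ε u : ℝ} (c : ℝ),
      ∑ x : Fin N, vp N ε y₀ u x * (c * wp N ε x) = c * ∑ x : Fin N, vp N ε y₀ u x * wp N ε x := by
    intro N ε u c
    rw [mul_sum]
    exact sum_congr rfl fun x _ => by ring
  constructor
  · -- (1)
    set e : ℝ := bet / (2 * (14 * k + 1)) with he
    have he0 : 0 < e := by positivity
    have he1 : (14 * k + 1) * e = bet / 2 := by
      rw [he]
      field_simp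
    obtain ⟨τ, hτ, H⟩ := enty hT R4 hy0 hy1 e he0
    refine ⟨τ, hτ, ?_⟩
    intro ls hk
    have hl : ls ≠ [] := by
      rintro rfl
      simp at hk
      omega
    filter_upwards [H ls, ev_N he0, ev_le (K := 2 * k) he0, eventually_gt_atTop 0]
      with N H hN hK hN0
    intro χ hχ1 hχ2
    have hNR : (0 : ℝ) < N := by exact_mod_cast hN0
    have HH := H χ hχ1 hχ2
    have hw := fun (x : Fin N) => vts_bd hρ0 hρ1 hc0 hcb hE R1 R2' R3 x.isLt (ε := e) hχ1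
    have hG : ∀ A : ℝ, A ≤ N * (E - c * min |χ.re| ρs ^ 2 + 6 * e) →
        A ≤ N * (E + 6 * e) := by
      intro A hA
      refine hA.trans (mul_le_mul_of_nonneg_left ?_ hNR.le)
      have : 0 ≤ c * min |χ.re| ρs ^ 2 := by positivity
      linarith
    have hww : ∀ x : Fin N, vp N e y₀ χ.re x * wp N e x ≤ Real.exp (N * (E + 6 * e)) ∧
        wq N e x * vq N e y₀ χ.re x ≤ Real.exp (N * (E + 6 * e)) := fun x =>
      ⟨(hw x).1.trans (Real.exp_le_exp.2 (hG _ le_rfl)),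
        (hw x).2.1.trans (Real.exp_le_exp.2 (hG _ le_rfl))⟩
    set Sx : ℝ := ∑ x : Fin N, vp N e y₀ χ.re x * wp N e x with hSx
    set Sy : ℝ := ∑ y : Fin N, wq N e y * vq N e y₀ χ.re y with hSy
    have hSx0 : 0 ≤ Sx := sum_nonneg fun x _ =>
      mul_nonneg (vp_pos x.isLt _ _ _).le (wp_pos x.isLt _).le
    have hSy0 : 0 ≤ Sy := sum_nonneg fun x _ =>
      mul_nonneg (wq_pos x.isLt _).le (vq_pos x.isLt _ _ _).le
    have hSx1 : Sx ≤ Real.exp (N * (E + 7 * e)) := sum_le_exp hN fun x => (hww x).1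
    have hSy1 : Sy ≤ Real.exp (N * (E + 7 * e)) := sum_le_exp hN fun x => (hww x).2
    -- the masks
    set Tx : ℝ := ∑ x : Fin N, (if N - 1 - (N - 1) / 2 ≤ (x : ℕ) then (0 : ℝ) else 1) *
      (vp N e y₀ χ.re x * wp N e x) with hTx
    set Ty : ℝ := ∑ y : Fin N, (if (y : ℕ) ≤ (N - 1) / 2 then (0 : ℝ) else 1) *
      (wq N e y * vq N e y₀ χ.re y) with hTy
    have hTx1 : Tx ≤ Real.exp (N * (bet + 7 * e)) := sum_le_exp hN fun x =>
      mask_le' (Real.exp_pos _).le fun hc => (hw x).2.2.1 (by omega)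
    have hTy1 : Ty ≤ Real.exp (N * (bet + 7 * e)) := sum_le_exp hN fun y =>
      mask_le' (Real.exp_pos _).le fun hc => (hw y).2.2.2 (by omega)
    have hTy0 : 0 ≤ Ty := sum_nonneg fun x _ => by
      have := mul_nonneg (wq_pos x.isLt e).le (vq_pos x.isLt e y₀ χ.re).le
      split_ifs
      · rw [zero_mul]
      · rw [one_mul]
        exact this
    have hTx0 : 0 ≤ Tx := sum_nonneg fun x _ => by
      have := mul_nonneg (vp_pos x.isLt e y₀ χ.re).le (wp_pos x.isLt e).le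
      split_ifs
      · rw [zero_mul]
      · rw [one_mul]
        exact this
    set Px : Matrix (Fin N) (Fin N) ℂ := Matrix.diagonal
      (fun i : Fin N => if N - 1 - (N - 1) / 2 ≤ (i : ℕ) then (1 : ℂ) else 0) with hPx
    set Px' : Matrix (Fin N) (Fin N) ℂ := Matrix.diagonal
      (fun i : Fin N => if N - 1 - (N - 1) / 2 ≤ (i : ℕ) then (0 : ℂ) else 1) with hPx'
    set Py : Matrix (Fin N) (Fin N) ℂ := Matrix.diagonal
      (fun i : Fin N => if (i : ℕ) ≤ (N - 1) / 2 then (1 : ℂ) else 0) with hPy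
    set Py' : Matrix (Fin N) (Fin N) ℂ := Matrix.diagonal
      (fun i : Fin N => if (i : ℕ) ≤ (N - 1) / 2 then (0 : ℂ) else 1) with hPy'
    have hx1 : Px + Px' = 1 := diag_compl _
    have hy1 : Py + Py' = 1 := diag_compl _
    have hE2 : ∀ s : ℤ × ℤ, MA0 N s.1 * MB0 N χ s.2 - Px * MA0 N s.1 * Py * MB0 N χ s.2 =
        Px' * (MA0 N s.1 * MB0 N χ s.2) + Px * (MA0 N s.1 * (Py' * MB0 N χ s.2)) := by
      intro s
      have h1 : Px' = 1 - Px := by rw [← hx1]; abel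
      have h2 : Py' = 1 - Py := by rw [← hy1]; abel
      rw [h1, h2]
      noncomm_ring
    have h1 := hAB HH
    have h2 : ∀ s ∈ ls, Bd (fun x : Fin N => Sy * wp N e x) (fun x : Fin N => vp N e y₀ χ.re x)
        (Px * MA0 N s.1 * Py * MB0 N χ s.2) := by
      intro s hs
      have h3 := ((H χ hχ1 hχ2 s hs).2.diag_left
        (d := fun i : Fin N => if (i : ℕ) ≤ (N - 1) / 2 then (1 : ℂ) else 0)
        (δ := fun _ => 1) (fun i => norm_mask1))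
      have h4 := ((H χ hχ1 hχ2 s hs).1.mul h3).diag_left
        (d := fun i : Fin N => if N - 1 - (N - 1) / 2 ≤ (i : ℕ) then (1 : ℂ) else 0)
        (δ := fun _ => 1) (fun i => norm_mask1)
      rw [mul_assoc, mul_assoc]
      refine h4.mono fun i j => le_of_eq ?_
      simp only [one_mul, hSy]
    have h3 : ∀ s ∈ ls, Bd (fun x : Fin N => (if N - 1 - (N - 1) / 2 ≤ (x : ℕ) then (0 : ℝ) else 1) *
        (Sy * wp N e x) + Ty * wp N e x) (fun x : Fin N => vp N e y₀ χ.re x)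
        (MA0 N s.1 * MB0 N χ s.2 - Px * MA0 N s.1 * Py * MB0 N χ s.2) := by
      intro s hs
      rw [hE2]
      refine Bd.add ?_ ?_
      · exact (h1 s hs).diag_left (fun i => norm_mask')
      · have h3 := ((H χ hχ1 hχ2 s hs).2.diag_left
          (d := fun i : Fin N => if (i : ℕ) ≤ (N - 1) / 2 then (0 : ℂ) else 1)
          (δ := fun i : Fin N => if (i : ℕ) ≤ (N - 1) / 2 then (0 : ℝ) else 1)
          (fun i => norm_mask'))
        have h4 := ((H χ hχ1 hχ2 s hs).1.mul h3).diag_left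
          (d := fun i : Fin N => if N - 1 - (N - 1) / 2 ≤ (i : ℕ) then (1 : ℂ) else 0)
          (δ := fun _ => 1) (fun i => norm_mask1)
        refine h4.mono fun i j => le_of_eq ?_
        rw [one_mul]
        congr 2
        rw [hTy]
        exact sum_congr rfl fun y _ => by ring
    have h4 := tr_diff hl h1 h2 h3
    have e1 : (∑ x : Fin N, vp N e y₀ χ.re x *
        ((if N - 1 - (N - 1) / 2 ≤ (x : ℕ) then (0 : ℝ) else 1) *
        (Sy * wp N e x) + Ty * wp N e x)) = Sy * Tx + Ty * Sx := by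
      rw [hTx, hSx, mul_sum, mul_sum, ← sum_add_distrib]
      exact sum_congr rfl fun x _ => by ring
    rw [e1, hpull, hk] at h4
    refine le_trans h4 ?_
    have hSS : Sy * Sx ≤ Real.exp (N * (E + 7 * e)) ^ 2 := by
      rw [sq]
      exact mul_le_mul hSy1 hSx1 hSx0 (Real.exp_pos _).le
    have hST : Sy * Tx + Ty * Sx ≤
        2 * (Real.exp (N * (bet + 7 * e)) * Real.exp (N * (E + 7 * e))) := by
      have a1 : Sy * Tx ≤ Real.exp (N * (E + 7 * e)) * Real.exp (N * (bet + 7 * e)) :=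
        mul_le_mul hSy1 hTx1 hTx0 (Real.exp_pos _).le
      have a2 : Ty * Sx ≤ Real.exp (N * (bet + 7 * e)) * Real.exp (N * (E + 7 * e)) :=
        mul_le_mul hTy1 hSx1 hSx0 (Real.exp_pos _).le
      linarith
    calc (k : ℝ) * (Sy * Tx + Ty * Sx) * (Sy * Sx) ^ (k - 1) ≤
        k * (2 * (Real.exp (N * (bet + 7 * e)) * Real.exp (N * (E + 7 * e)))) *
          (Real.exp (N * (E + 7 * e)) ^ 2) ^ (k - 1) := by
          have : 0 ≤ Sy * Sx := mul_nonneg hSy0 hSx0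
          gcongr
      _ = (2 * k) * (Real.exp (N * (bet + 7 * e)) * Real.exp (N * (E + 7 * e)) *
          (Real.exp (N * (E + 7 * e)) ^ 2) ^ (k - 1)) := by ring
      _ ≤ Real.exp (N * e) * (Real.exp (N * (bet + 7 * e)) * Real.exp (N * (E + 7 * e)) *
          (Real.exp (N * (E + 7 * e)) ^ 2) ^ (k - 1)) := by gcongr
      _ = Real.exp (N * (bet + (2 * k - 1) * E + (14 * k + 1) * e)) := by
          rw [← pow_mul, ← Real.exp_nat_mul, ← Real.exp_add, ← Real.exp_add, ← Real.exp_add]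
          congr 1
          push_cast [Nat.cast_sub hk1]
          ring
      _ ≤ Real.exp (N * (2 * k * E - bet / 2)) := by
          refine Real.exp_le_exp.2 (mul_le_mul_of_nonneg_left ?_ hNR.le)
          rw [he1]
          linarith
  · -- (2)
    intro ε hε
    set f : ℝ := ε / (14 * k) with hf
    have hf0 : 0 < f := by positivity
    have hf1 : 14 * k * f = ε := by
      rw [hf]
      field_simp
    obtain ⟨τ', hτ', H'⟩ := enty hT R4 hy0 hy1 f hf0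
    refine ⟨τ', hτ', ?_⟩
    intro ls hk
    have hl : ls ≠ [] := by
      rintro rfl
      simp at hk
      omega
    filter_upwards [H' ls, ev_N hf0, eventually_gt_atTop 0] with N H hN hN0
    intro χ hχ1 hχ2
    have HH := H χ hχ1 hχ2
    have hw := fun (x : Fin N) => vts_bd hρ0 hρ1 hc0 hcb hE R1 R2' R3 x.isLt (ε := f) hχ1
    have h1 := tr_bd hl (hAB HH)
    rw [hpull, hk] at h1
    set Sx : ℝ := ∑ x : Fin N, vp N f y₀ χ.re x * wp N f x with hSx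
    set Sy : ℝ := ∑ y : Fin N, wq N f y * vq N f y₀ χ.re y with hSy
    have hSx0 : 0 ≤ Sx := sum_nonneg fun x _ =>
      mul_nonneg (vp_pos x.isLt _ _ _).le (wp_pos x.isLt _).le
    have hSy0 : 0 ≤ Sy := sum_nonneg fun x _ =>
      mul_nonneg (wq_pos x.isLt _).le (vq_pos x.isLt _ _ _).le
    have hSx1 : Sx ≤ Real.exp (N * (E - c * min |χ.re| ρs ^ 2 + 7 * f)) :=
      sum_le_exp hN fun x => (hw x).1
    have hSy1 : Sy ≤ Real.exp (N * (E - c * min |χ.re| ρs ^ 2 + 7 * f)) :=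
      sum_le_exp hN fun x => (hw x).2.1
    refine h1.trans ?_
    calc (Sy * Sx) ^ k ≤ (Real.exp (N * (E - c * min |χ.re| ρs ^ 2 + 7 * f)) *
          Real.exp (N * (E - c * min |χ.re| ρs ^ 2 + 7 * f))) ^ k := by
          gcongr
      _ = Real.exp (N * (2 * k * E - 2 * k * c * min |χ.re| ρs ^ 2 + ε)) := by
          rw [← Real.exp_add, ← Real.exp_nat_mul]
          congr 1
          linear_combination (N : ℝ) * hf1

/-- FARY -/
theorem fary : S_FARY := by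
  intro hT hR y₀ hy0 hy1
  obtain ⟨ρs, c₂, hρ0, hρ1, hc, h⟩ := faryu hT hR y₀ hy0 hy1
  refine ⟨ρs, c₂, hρ0, hρ1, hc, fun ls hl => ?_⟩
  obtain ⟨⟨τ, hτ, h1⟩, h2⟩ := h ls.length (List.length_pos_iff.2 hl)
  refine ⟨⟨τ, hτ, h1 ls rfl⟩, fun ε hε => ?_⟩
  obtain ⟨τ', hτ', h3⟩ := h2 ε hε
  exact ⟨τ', hτ', h3 ls rfl⟩

end Pool.Agent.Y535.CB
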